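import Mathlib

/-!
The hairy ball theorem on the unit sphere of `E^3`, by the covering map `exp : ℂ → ℂ \ {0}`,
and a transport lemma for transverse fields along a homotopy.
-/

open scoped Real
open Set

namespace Pool.Agent.Lib.MP_b1931f_gt

/-- A continuous function on the real line whose exponential is constant is constant. -/
theorem const_of_exp (d : C(ℝ, ℂ)) (h : ∀ x, Complex.exp (d x) = Complex.exp (d 0)) (x : ℝ) :
    d x = d 0 := by
  obtain ⟨F, -, huniq⟩ := Complex.isCoveringMapOn_exp.existsUnique_continuousMap_lifts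
    (ContinuousMap.const ℝ (Complex.exp (d 0))) (a₀ := (0 : ℝ)) (e₀ := d 0) (by simp)
    (fun a => by simp)
  have h1 := huniq d ⟨rfl, by ext y; simpa using h y⟩
  have h2 := huniq (ContinuousMap.const ℝ (d 0)) ⟨rfl, by ext y; simp⟩
  rw [h1, ← h2]
  rfl

theorem no_homotopy (c : C(ℝ × ℝ, ℂ)) (hne : ∀ p, c p ≠ 0)
    (hper : ∀ φ, c (φ, 2 * π) = c (φ, 0)) (z₀ z₁ : ℂ)
    (h0 : ∀ θ : ℝ, c (0, θ) = z₀ * Complex.exp (-(θ * Complex.I)))
    (h1 : ∀ θ : ℝ, c (π, θ) = z₁ * Complex.exp (θ * Complex.I)) : False := by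
  obtain ⟨F, ⟨-, hF⟩, -⟩ := Complex.isCoveringMapOn_exp.existsUnique_continuousMap_lifts c
    (a₀ := ((0 : ℝ), (0 : ℝ))) (e₀ := Complex.log (c (0, 0)))
    (by simp [Complex.exp_log (hne _)]) (fun a => hne a)
  have hF' : ∀ p, Complex.exp (F p) = c p := fun p => congrFun hF p
  -- difference along the parallel circles
  let d₁ : C(ℝ, ℂ) := ⟨fun φ => F (φ, 2 * π) - F (φ, 0), by fun_prop⟩
  let d₂ : C(ℝ, ℂ) := ⟨fun θ => F (0, θ) + θ * Complex.I, by fun_prop⟩
  let d₃ : C(ℝ, ℂ) := ⟨fun θ => F (π, θ) - θ * Complex.I, by fun_prop⟩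
  have e1 : ∀ x, Complex.exp (d₁ x) = 1 := by
    intro x
    change Complex.exp (F (x, 2 * π) - F (x, 0)) = 1
    rw [Complex.exp_sub, hF', hF', hper, div_self (hne _)]
  have e2 : ∀ x, Complex.exp (d₂ x) = z₀ := by
    intro x
    change Complex.exp (F (0, x) + x * Complex.I) = z₀
    rw [Complex.exp_add, hF', h0, mul_assoc, ← Complex.exp_add]
    simp
  have e3 : ∀ x, Complex.exp (d₃ x) = z₁ := by
    intro x
    change Complex.exp (F (π, x) - x * Complex.I) = z₁
    rw [Complex.exp_sub, hF', h1, mul_div_assoc, div_self (Complex.exp_ne_zero _), mul_one]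
  have c1 := const_of_exp d₁ (fun x => by rw [e1, e1]) π
  have c2 := const_of_exp d₂ (fun x => by rw [e2, e2]) (2 * π)
  have c3 := const_of_exp d₃ (fun x => by rw [e3, e3]) (2 * π)
  change F (π, 2 * π) - F (π, 0) = F (0, 2 * π) - F (0, 0) at c1
  change F (0, 2 * π) + ((2 * π : ℝ) : ℂ) * Complex.I = F (0, 0) + ((0 : ℝ) : ℂ) * Complex.I at c2
  change F (π, 2 * π) - ((2 * π : ℝ) : ℂ) * Complex.I = F (π, 0) - ((0 : ℝ) : ℂ) * Complex.I at c3
  have key : ((2 * π : ℝ) : ℂ) * Complex.I = 0 := by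
    push_cast at c2 c3 ⊢
    linear_combination (c1 - c3 + c2) / 2
  have : (2 * π : ℝ) ≠ 0 := by positivity
  simp [Complex.I_ne_zero] at key

/-- Euclidean 3-space. -/
abbrev E3 := EuclideanSpace ℝ (Fin 3)

/-- spherical coordinates -/
noncomputable def sph (p : ℝ × ℝ) : E3 :=
  !₂[Real.sin p.1 * Real.cos p.2, Real.sin p.1 * Real.sin p.2, Real.cos p.1]

theorem sph_mem (p : ℝ × ℝ) : sph p ∈ Metric.sphere (0 : E3) 1 := by
  rw [mem_sphere_zero_iff_norm, EuclideanSpace.norm_eq]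
  rw [Real.sqrt_eq_one]
  simp only [sph, Fin.sum_univ_three, Real.norm_eq_abs, sq_abs]
  simp only [Matrix.cons_val_zero, Matrix.cons_val_one, Matrix.cons_val]
  nlinarith [Real.sin_sq_add_cos_sq p.1, Real.sin_sq_add_cos_sq p.2]

theorem continuous_sph : Continuous sph := by
  unfold sph
  fun_prop

theorem cont_aux (A B C : ℝ × ℝ → ℝ) (hA : Continuous A) (hB : Continuous B)
    (hC : Continuous C) :
    Continuous fun p : ℝ × ℝ =>
      ((Real.cos p.1 * Real.cos p.2 * A p + Real.cos p.1 * Real.sin p.2 * B p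
        - Real.sin p.1 * C p : ℝ) : ℂ)
      + ((-Real.sin p.2 * A p + Real.cos p.2 * B p : ℝ) : ℂ) * Complex.I := by
  fun_prop

theorem re_im_zero (x y : ℝ) (h : (x : ℂ) + (y : ℂ) * Complex.I = 0) : x = 0 ∧ y = 0 := by
  constructor
  · simpa using congrArg Complex.re h
  · simpa using congrArg Complex.im h

theorem alg_aux (cp sp ct st a b c : ℝ) (s1 : sp ^ 2 + cp ^ 2 = 1) (s2 : st ^ 2 + ct ^ 2 = 1)
    (hre : cp * ct * a + cp * st * b - sp * c = 0) (him : -st * a + ct * b = 0) :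
    a = (sp * (ct * a + st * b) + cp * c) * (sp * ct) ∧
    b = (sp * (ct * a + st * b) + cp * c) * (sp * st) ∧
    c = (sp * (ct * a + st * b) + cp * c) * cp := by
  refine ⟨?_, ?_, ?_⟩
  · linear_combination (cp * ct) * hre - st * him - (ct * a + st * b) * ct * s1 - a * s2
  · linear_combination (cp * st) * hre + ct * him - (ct * a + st * b) * st * s1 - b * s2
  · linear_combination (-sp) * hre - c * s1

/-- **Hairy ball theorem** on the 2-sphere: a continuous field on the sphere cannot be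
everywhere non-parallel to the position vector. -/
theorem hairy_ball (V : E3 → E3) (hV : ContinuousOn V (Metric.sphere 0 1))
    (h : ∀ n ∈ Metric.sphere (0 : E3) 1, ∀ r : ℝ, V n ≠ r • n) : False := by
  have hVs : Continuous fun p => V (sph p) :=
    hV.comp_continuous continuous_sph sph_mem
  have hVs0 : Continuous fun p => V (sph p) 0 :=
    (EuclideanSpace.proj (0 : Fin 3)).continuous.comp hVs
  have hVs1 : Continuous fun p => V (sph p) 1 :=
    (EuclideanSpace.proj (1 : Fin 3)).continuous.comp hVs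
  have hVs2 : Continuous fun p => V (sph p) 2 :=
    (EuclideanSpace.proj (2 : Fin 3)).continuous.comp hVs
  have hf := cont_aux _ _ _ hVs0 hVs1 hVs2
  set f : ℝ × ℝ → ℂ := fun p =>
    ((Real.cos p.1 * Real.cos p.2 * V (sph p) 0 + Real.cos p.1 * Real.sin p.2 * V (sph p) 1
      - Real.sin p.1 * V (sph p) 2 : ℝ) : ℂ)
    + ((-Real.sin p.2 * V (sph p) 0 + Real.cos p.2 * V (sph p) 1 : ℝ) : ℂ) * Complex.I with hfdef
  have hper : ∀ φ, sph (φ, 2 * π) = sph (φ, 0) := by
    intro φ; simp [sph]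
  have hN : ∀ θ, sph (0, θ) = sph (0, 0) := by
    intro φ; simp [sph]
  have hS : ∀ θ, sph (π, θ) = sph (π, 0) := by
    intro φ; simp [sph]
  refine no_homotopy ⟨f, hf⟩ ?_ ?_ ((V (sph (0, 0)) 0 : ℂ) + (V (sph (0, 0)) 1 : ℂ) * Complex.I)
    (-((V (sph (π, 0)) 0 : ℂ) - (V (sph (π, 0)) 1 : ℂ) * Complex.I)) ?_ ?_
  · rintro ⟨φ, θ⟩ h0
    change f (φ, θ) = 0 at h0
    obtain ⟨hre, him⟩ := re_im_zero _ _ h0
    obtain ⟨e0, e1, e2⟩ := alg_aux _ _ _ _ _ _ _ (Real.sin_sq_add_cos_sq φ)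
      (Real.sin_sq_add_cos_sq θ) hre him
    apply h _ (sph_mem (φ, θ)) (Real.sin φ * (Real.cos θ * V (sph (φ, θ)) 0
      + Real.sin θ * V (sph (φ, θ)) 1) + Real.cos φ * V (sph (φ, θ)) 2)
    ext i
    fin_cases i
    · exact e0
    · exact e1
    · exact e2
  · intro φ
    change f (φ, 2 * π) = f (φ, 0)
    simp only [hfdef, hper]
    simp
  · intro θ
    change f (0, θ) = _
    have : -((θ : ℂ) * Complex.I) = ((-θ : ℝ) : ℂ) * Complex.I := by push_cast; ring
    rw [this, Complex.exp_mul_I, ← Complex.ofReal_cos, ← Complex.ofReal_sin, Real.cos_neg,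
      Real.sin_neg]
    simp only [hfdef, hN θ, Real.cos_zero, Real.sin_zero]
    push_cast
    linear_combination ((V (sph (0, 0)) 1 : ℂ) * Complex.sin θ) * Complex.I_sq
  · intro θ
    change f (π, θ) = _
    rw [Complex.exp_mul_I, ← Complex.ofReal_cos, ← Complex.ofReal_sin]
    simp only [hfdef, hS θ, Real.cos_pi, Real.sin_pi]
    push_cast
    linear_combination (-(V (sph (π, 0)) 1 : ℂ) * Complex.sin θ) * Complex.I_sq

end Pool.Agent.Lib.MP_b1931f_gt
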