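import Mathlib
import Pool.Agent.Lib.MP_b1931f_gt.HairyBall

/-!
Transport of transverse fields along a homotopy of nowhere zero maps on the 2-sphere.
-/

open scoped Real Topology
open Set Metric

namespace Pool.Agent.Lib.MP_b1931f_gt

/-- `F (·, r)` admits a continuous field that is nowhere parallel to it. -/
def HasField (F : E3 × ℝ → E3) (r : ℝ) : Prop :=
  ∃ V : E3 → E3, ContinuousOn V (sphere 0 1) ∧
    ∀ n ∈ sphere (0 : E3) 1, ∀ c : ℝ, V n ≠ c • F (n, r)

theorem unit_orth (N N' : E3) (h : ‖N‖ = 1) (h' : ‖N'‖ = 1) (hd : dist N N' < 1)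
    (ho : inner ℝ N N' = 0) : False := by
  have h1 : ‖N - N'‖ * ‖N - N'‖ = 2 := by
    have := norm_sub_mul_self_real N N'
    rw [this, h, h', ho]; norm_num
  rw [dist_eq_norm] at hd
  have h2 : 0 ≤ ‖N - N'‖ := norm_nonneg _
  nlinarith

theorem transport (F : E3 × ℝ → E3) (a b : ℝ) (hab : a ≤ b)
    (hF : ContinuousOn F (sphere (0 : E3) 1 ×ˢ Icc a b))
    (hne : ∀ p ∈ sphere (0 : E3) 1 ×ˢ Icc a b, F p ≠ 0)
    (hb : HasField F b) : HasField F a := by
  classical
  set K : Set (E3 × ℝ) := sphere (0 : E3) 1 ×ˢ Icc a b with hK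
  have hKc : IsCompact K := (isCompact_sphere _ _).prod isCompact_Icc
  let N : E3 × ℝ → E3 := fun p => ‖F p‖⁻¹ • F p
  have hN : ContinuousOn N K := by
    refine ContinuousOn.fun_smul (f := fun p => ‖F p‖⁻¹) (g := F) ?_ ?_
    · exact (continuous_norm.comp_continuousOn hF).inv₀ (fun p hp => norm_ne_zero_iff.2 (hne p hp))
    · exact hF
  have hNn : ∀ p ∈ K, ‖N p‖ = 1 := by
    intro p hp
    simp only [N, norm_smul, norm_inv, norm_norm]
    exact inv_mul_cancel₀ (norm_ne_zero_iff.2 (hne p hp))
  have hu := hKc.uniformContinuousOn_of_continuous hN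
  rw [Metric.uniformContinuousOn_iff] at hu
  obtain ⟨δ, hδ, hu⟩ := hu 1 one_pos
  -- the local step
  have step : ∀ r ∈ Icc a b, ∀ r' ∈ Icc a b, |r - r'| < δ → HasField F r → HasField F r' := by
    rintro r hr r' hr' hrr ⟨V, hV, hVn⟩
    refine ⟨fun n => V n - inner ℝ (V n) (N (n, r)) • N (n, r), ?_, ?_⟩
    · have hNr : ContinuousOn (fun n => N (n, r)) (sphere 0 1) := by
        refine hN.comp (by fun_prop) ?_
        intro n hn
        exact ⟨hn, hr⟩
      exact hV.sub ((hV.inner hNr).fun_smul hNr)
    · intro n hn c hc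
      have hp : (n, r) ∈ K := ⟨hn, hr⟩
      have hp' : (n, r') ∈ K := ⟨hn, hr'⟩
      have hd : dist (N (n, r)) (N (n, r')) < 1 := by
        apply hu _ hp _ hp'
        rw [Prod.dist_eq, dist_self, Real.dist_eq, max_lt_iff]
        exact ⟨hδ, hrr⟩
      have hF' : F (n, r') = ‖F (n, r')‖ • N (n, r') := by
        simp only [N, smul_smul]
        rw [mul_inv_cancel₀ (norm_ne_zero_iff.2 (hne _ hp')), one_smul]
      have horth : inner ℝ (N (n, r)) (V n - inner ℝ (V n) (N (n, r)) • N (n, r)) = 0 := by
        rw [inner_sub_right, inner_smul_right, real_inner_self_eq_norm_sq, hNn _ hp,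
          real_inner_comm]
        ring
      by_cases hc0 : c = 0
      · -- then `V n` is parallel to `N (n, r)`, hence to `F (n, r)`
        simp only [hc0, zero_smul, sub_eq_zero] at hc
        apply hVn n hn (inner ℝ (V n) (N (n, r)) * ‖F (n, r)‖⁻¹)
        conv_lhs => rw [hc]
        simp only [N, smul_smul]
      · simp only at hc
        rw [hc, hF', inner_smul_right, inner_smul_right] at horth
        have hnz : ‖F (n, r')‖ ≠ 0 := norm_ne_zero_iff.2 (hne _ hp')
        have : inner ℝ (N (n, r)) (N (n, r')) = 0 := by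
          rcases mul_eq_zero.1 horth with h | h
          · exact absurd h hc0
          · rcases mul_eq_zero.1 h with h | h
            · exact absurd h hnz
            · exact h
        exact unit_orth _ _ (hNn _ hp) (hNn _ hp') hd this
  -- connectedness
  let p : Icc a b → Prop := fun r => HasField F r
  have hloc : IsLocallyConstant p := by
    rw [IsLocallyConstant.iff_eventually_eq]
    intro x
    filter_upwards [Metric.ball_mem_nhds x hδ] with y hy
    have hxy : |(y : ℝ) - (x : ℝ)| < δ := by
      rw [mem_ball, Subtype.dist_eq, Real.dist_eq] at hy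
      exact hy
    apply propext
    exact ⟨step y y.2 x x.2 hxy, step x x.2 y y.2 (by rw [abs_sub_comm]; exact hxy)⟩
  have : PreconnectedSpace (Icc a b) := isPreconnected_iff_preconnectedSpace.1 isPreconnected_Icc
  have := hloc.apply_eq_of_preconnectedSpace ⟨a, left_mem_Icc.2 hab⟩ ⟨b, right_mem_Icc.2 hab⟩
  change HasField F a = HasField F b at this
  rw [this]; exact hb

end Pool.Agent.Lib.MP_b1931f_gt
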