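import Mathlib
import Pool.Agent.Lib.MP_b1931f_gt.Transport

/-!
The pair `{y = 0} ∪ {‖y‖ = 1, x₁ = x₂ = 0}` in `E^3 × E^3` is not a complete intersection.
-/

open scoped Real Topology ContDiff
open Set Metric

namespace Pool.Agent.Lib.MP_b1931f_gt

/-- mean of the derivative along a segment -/
noncomputable def meanD (g : E3 → E3) (p q v : E3) : E3 :=
  ∫ s in (0 : ℝ)..1, fderiv ℝ g (p + s • (q - p)) v

theorem meanD_continuous (g : E3 → E3) (hg : ContDiff ℝ ∞ g) :
    Continuous fun x : E3 × E3 × E3 => meanD g x.1 x.2.1 x.2.2 := by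
  have h1 : Continuous (fderiv ℝ g) := hg.continuous_fderiv (by simp)
  have : Continuous (Function.uncurry fun (x : E3 × E3 × E3) (s : ℝ) =>
      fderiv ℝ g (x.1 + s • (x.2.1 - x.1)) x.2.2) := by
    have h2 : Continuous fun z : (E3 × E3 × E3) × ℝ =>
        fderiv ℝ g (z.1.1 + z.2 • (z.1.2.1 - z.1.1)) :=
      h1.comp (by fun_prop)
    exact h2.clm_apply (by fun_prop)
  exact intervalIntegral.continuous_parametric_intervalIntegral_of_continuous' this 0 1

theorem meanD_sub (g : E3 → E3) (hg : ContDiff ℝ ∞ g) (p q : E3) :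
    g q - g p = meanD g p q (q - p) := by
  have hd : ∀ s ∈ uIcc (0 : ℝ) 1, HasDerivAt (fun s : ℝ => g (p + s • (q - p)))
      (fderiv ℝ g (p + s • (q - p)) (q - p)) s := by
    intro s _
    have h1 : HasFDerivAt g (fderiv ℝ g (p + s • (q - p))) (p + s • (q - p)) :=
      ((hg.differentiable (by simp)) _).hasFDerivAt
    have h2 : HasDerivAt (fun s : ℝ => p + s • (q - p)) (q - p) s := by
      have := ((hasDerivAt_id s).smul_const (q - p)).const_add p
      simpa using this
    exact h1.comp_hasDerivAt s h2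
  have hc : Continuous fun s : ℝ => fderiv ℝ g (p + s • (q - p)) (q - p) := by
    have h1 : Continuous (fderiv ℝ g) := hg.continuous_fderiv (by simp)
    have h2 : Continuous fun s : ℝ => fderiv ℝ g (p + s • (q - p)) := h1.comp (by fun_prop)
    exact h2.clm_apply continuous_const
  have := intervalIntegral.integral_eq_sub_of_hasDerivAt hd (hc.intervalIntegrable 0 1)
  simp only [one_smul, zero_smul, add_zero, add_sub_cancel] at this
  exact this.symm

theorem meanD_smul (g : E3 → E3) (p q v : E3) (c : ℝ) :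
    meanD g p q (c • v) = c • meanD g p q v := by
  unfold meanD
  simp only [map_smul]
  exact intervalIntegral.integral_smul c _

theorem meanD_self (g : E3 → E3) (p v : E3) : meanD g p p v = fderiv ℝ g p v := by
  unfold meanD
  simp

/-- A linear map onto a 3-dimensional space does not have its range in the span of 2 vectors. -/
theorem not_surj {V : Type*} [NormedAddCommGroup V] [NormedSpace ℝ V] (T : V →L[ℝ] E3)
    (hT : Function.Surjective T) (a b : E3)
    (h : ∀ v, ∃ r s : ℝ, T v = r • a + s • b) : False := by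
  classical
  have hle : (⊤ : Submodule ℝ E3) ≤ Submodule.span ℝ ({a, b} : Set E3) := by
    intro y _
    obtain ⟨v, rfl⟩ := hT y
    obtain ⟨r, s, hrs⟩ := h v
    rw [hrs]
    exact Submodule.add_mem _ (Submodule.smul_mem _ _ (Submodule.subset_span (by simp)))
      (Submodule.smul_mem _ _ (Submodule.subset_span (by simp)))
  have h1 : Module.finrank ℝ (⊤ : Submodule ℝ E3) = 3 := by simp
  have h2 : Module.finrank ℝ (Submodule.span ℝ ({a, b} : Set E3)) ≤ 2 := by
    have := finrank_span_le_card (R := ℝ) ({a, b} : Set E3)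
    refine this.trans ?_
    rw [Set.toFinset_insert, Set.toFinset_singleton]
    exact Finset.card_le_two
  have h3 := Submodule.finrank_mono hle
  omega

/-- The model pair. -/
def modelL : Set (E3 × E3) :=
  {p | p.2 = 0 ∨ (‖p.2‖ = 1 ∧ p.1 1 = 0 ∧ p.1 2 = 0)}

theorem not_ci (Ψ : E3 × E3 → E3) (hΨ : ContDiff ℝ ∞ Ψ)
    (hreg : ∀ p, Ψ p = 0 → Function.Surjective (fderiv ℝ Ψ p))
    (hzero : ∀ p, Ψ p = 0 ↔ p ∈ modelL) : False := by
  have hΨd : Differentiable ℝ Ψ := hΨ.differentiable (by simp)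
  let g : E3 → E3 := fun y => Ψ (0, y)
  have hg : ContDiff ℝ ∞ g := hΨ.comp (by fun_prop)
  have hDg : ∀ y v, fderiv ℝ g y v = fderiv ℝ Ψ (0, y) (0, v) := by
    intro y v
    have h1 : HasFDerivAt g ((fderiv ℝ Ψ (0, y)).comp (ContinuousLinearMap.inr ℝ E3 E3)) y :=
      (hΨd (0, y)).hasFDerivAt.comp y (hasFDerivAt_prodMk_right (0 : E3) y)
    rw [h1.fderiv]
    rfl
  -- the derivative vanishes along curves in `modelL`
  have hcurve : ∀ (γ : ℝ → E3 × E3) (v : E3 × E3), HasDerivAt γ v 0 → (∀ t, γ t ∈ modelL) →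
      fderiv ℝ Ψ (γ 0) v = 0 := by
    intro γ v hγ hm
    have h1 : HasDerivAt (fun t => Ψ (γ t)) (fderiv ℝ Ψ (γ 0) v) 0 :=
      (hΨd (γ 0)).hasFDerivAt.comp_hasDerivAt 0 hγ
    have h2 : (fun t => Ψ (γ t)) = fun _ => 0 := funext fun t => (hzero _).2 (hm t)
    rw [h2] at h1
    exact h1.unique (hasDerivAt_const (0 : ℝ) (0 : E3))
  have hz0 : g 0 = 0 := (hzero _).2 (Or.inl rfl)
  have hz1 : ∀ n ∈ sphere (0 : E3) 1, g n = 0 := by
    intro n hn
    exact (hzero _).2 (Or.inr ⟨by simpa using hn, by simp, by simp⟩)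
  -- at the origin
  have hA : ∀ x : E3, fderiv ℝ Ψ (0, 0) (x, 0) = 0 := by
    intro x
    have h := hcurve (fun t => (t • x, 0)) (x, 0) ?_ ?_
    · simpa using h
    · have := (hasDerivAt_id (0 : ℝ)).smul_const x
      simpa using this.prodMk (hasDerivAt_const (0 : ℝ) (0 : E3))
    · intro t; exact Or.inl rfl
  have hA' : Function.Surjective (fderiv ℝ g 0) := by
    intro w
    obtain ⟨⟨x, y⟩, hxy⟩ := hreg (0, 0) hz0 w
    refine ⟨y, ?_⟩
    rw [hDg]
    have : ((x, y) : E3 × E3) = (x, 0) + (0, y) := by simp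
    rw [this, map_add, hA, zero_add] at hxy
    exact hxy
  have hAinj : Function.Injective (fderiv ℝ g 0) := by
    have := (LinearMap.injective_iff_surjective (f := ((fderiv ℝ g 0 : E3 →L[ℝ] E3) : E3 →ₗ[ℝ] E3))).2 hA'
    exact this
  -- on the sphere
  have hB : ∀ n ∈ sphere (0 : E3) 1, ∀ t : ℝ,
      fderiv ℝ Ψ (0, n) (EuclideanSpace.single 0 t, 0) = 0 := by
    intro n hn t
    have h := hcurve (fun s => (s • EuclideanSpace.single 0 t, n)) (EuclideanSpace.single 0 t, 0) ?_ ?_
    · simpa using h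
    · have := (hasDerivAt_id (0 : ℝ)).smul_const (EuclideanSpace.single (0 : Fin 3) t)
      simpa using this.prodMk (hasDerivAt_const (0 : ℝ) n)
    · intro s
      refine Or.inr ⟨by simpa using hn, by simp, by simp⟩
  have hC : ∀ n ∈ sphere (0 : E3) 1, ∀ v : E3, inner ℝ n v = 0 →
      fderiv ℝ Ψ (0, n) (0, v) = 0 := by
    intro n hn v hv
    have hn1 : ‖n‖ = 1 := by simpa using hn
    by_cases hv0 : v = 0
    · subst hv0
      exact map_zero _
    have hvn : ‖v‖ ≠ 0 := norm_ne_zero_iff.2 hv0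
    -- unit vector case
    have h := hcurve (fun s => (0, Real.cos (‖v‖ * s) • n + Real.sin (‖v‖ * s) • (‖v‖⁻¹ • v))) (0, v) ?_ ?_
    · simpa using h
    · have hm : HasDerivAt (fun s : ℝ => ‖v‖ * s) ‖v‖ 0 := by
        simpa using (hasDerivAt_id (0 : ℝ)).const_mul ‖v‖
      have hc : HasDerivAt (fun s : ℝ => Real.cos (‖v‖ * s)) (-Real.sin (‖v‖ * 0) * ‖v‖) 0 :=
        (Real.hasDerivAt_cos (‖v‖ * 0)).comp 0 hm
      have hs : HasDerivAt (fun s : ℝ => Real.sin (‖v‖ * s)) (Real.cos (‖v‖ * 0) * ‖v‖) 0 :=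
        (Real.hasDerivAt_sin (‖v‖ * 0)).comp 0 hm
      have h1 := (hc.smul_const n).add (hs.smul_const (‖v‖⁻¹ • v))
      have h2 := (hasDerivAt_const (0 : ℝ) (0 : E3)).prodMk h1
      have e3 : (0, v) = ((0 : E3), (-Real.sin (‖v‖ * 0) * ‖v‖) • n +
          (Real.cos (‖v‖ * 0) * ‖v‖) • ‖v‖⁻¹ • v) := by
        simp [smul_smul, mul_inv_cancel₀ hvn]
      rw [e3]
      exact h2
    · intro s
      refine Or.inr ⟨?_, by simp, by simp⟩
      have e1 : ‖Real.cos (‖v‖ * s) • n + Real.sin (‖v‖ * s) • (‖v‖⁻¹ • v)‖ ^ 2 = 1 := by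
        rw [← real_inner_self_eq_norm_sq]
        simp only [inner_add_left, inner_add_right, inner_smul_left, inner_smul_right,
          real_inner_self_eq_norm_sq, hn1, hv, real_inner_comm n v]
        simp only [conj_trivial]
        field_simp
        linear_combination ‖v‖ * Real.sin_sq_add_cos_sq (‖v‖ * s)
      have e2 : 0 ≤ ‖Real.cos (‖v‖ * s) • n + Real.sin (‖v‖ * s) • (‖v‖⁻¹ • v)‖ := norm_nonneg _
      nlinarith
  -- the radial derivative on the sphere and a transverse field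
  let w : E3 → E3 := fun n => fderiv ℝ Ψ (0, n) (0, n)
  let V : E3 → E3 := fun n => fderiv ℝ Ψ (0, n) (EuclideanSpace.single 1 1, 0)
  have hform : ∀ n ∈ sphere (0 : E3) 1, ∀ x y : E3, fderiv ℝ Ψ (0, n) (x, y) =
      x 1 • V n + x 2 • fderiv ℝ Ψ (0, n) (EuclideanSpace.single 2 1, 0) + inner ℝ n y • w n := by
    intro n hn x y
    have hn1 : ‖n‖ = 1 := by simpa using hn
    have hx : x = EuclideanSpace.single 0 (x 0) + x 1 • EuclideanSpace.single 1 (1 : ℝ)
        + x 2 • EuclideanSpace.single 2 (1 : ℝ) := by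
      ext i; fin_cases i <;> simp
    have hy : inner ℝ n (y - inner ℝ n y • n) = 0 := by
      rw [inner_sub_right, inner_smul_right, real_inner_self_eq_norm_sq, hn1]; ring
    have e : ((x, y) : E3 × E3) = (EuclideanSpace.single 0 (x 0), 0)
        + x 1 • (EuclideanSpace.single 1 (1 : ℝ), 0) + x 2 • (EuclideanSpace.single 2 (1 : ℝ), 0)
        + (0, y - inner ℝ n y • n) + inner ℝ n y • (0, n) := by
      ext1
      · simpa using hx
      · simp
    rw [e, map_add, map_add, map_add, map_add, map_smul, map_smul, map_smul, hB n hn, hC n hn _ hy]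
    simp only [zero_add, add_zero, V, w]
  have hindep : ∀ n ∈ sphere (0 : E3) 1, (∀ c : ℝ, V n ≠ c • w n) ∧ w n ≠ 0 := by
    intro n hn
    have hs : Function.Surjective (fderiv ℝ Ψ (0, n)) :=
      hreg _ ((hzero _).2 (Or.inr ⟨by simpa using hn, by simp, by simp⟩))
    constructor
    · intro c hc
      refine not_surj _ hs (w n) (fderiv ℝ Ψ (0, n) (EuclideanSpace.single 2 1, 0)) ?_
      rintro ⟨x, y⟩
      refine ⟨x 1 * c + inner ℝ n y, x 2, ?_⟩
      rw [hform n hn, hc, add_smul, smul_smul]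
      abel
    · intro hw
      refine not_surj _ hs (V n) (fderiv ℝ Ψ (0, n) (EuclideanSpace.single 2 1, 0)) ?_
      rintro ⟨x, y⟩
      refine ⟨x 1, x 2, ?_⟩
      rw [hform n hn, hw]
      simp
  -- nonvanishing inside
  have hin : ∀ n ∈ sphere (0 : E3) 1, ∀ r : ℝ, 0 < r → r < 1 → g (r • n) ≠ 0 := by
    intro n hn r hr0 hr1 h0
    have hn1 : ‖n‖ = 1 := by simpa using hn
    rcases (hzero _).1 h0 with h | h
    · simp only [smul_eq_zero] at h
      rcases h with h | h
      · exact absurd h hr0.ne'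
      · rw [h] at hn1; simp at hn1
    · have h1 := h.1
      simp only [norm_smul, hn1, mul_one, Real.norm_eq_abs, abs_of_pos hr0] at h1
      exact absurd h1 hr1.ne
  -- the two difference quotients
  let G : E3 × ℝ → E3 := fun p => meanD g (p.2 • p.1) p.1 p.1
  let H : E3 × ℝ → E3 := fun p => meanD g 0 (p.2 • p.1) p.1
  have hGc : Continuous G := (meanD_continuous g hg).comp
    (f := fun p : E3 × ℝ => (p.2 • p.1, p.1, p.1)) (by fun_prop)
  have hHc : Continuous H := (meanD_continuous g hg).comp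
    (f := fun p : E3 × ℝ => ((0 : E3), p.2 • p.1, p.1)) (by fun_prop)
  have hGeq : ∀ n ∈ sphere (0 : E3) 1, ∀ r : ℝ, (1 - r) • G (n, r) = - g (r • n) := by
    intro n hn r
    have h1 := meanD_sub g hg (r • n) n
    rw [hz1 n hn, zero_sub] at h1
    have h2 : n - r • n = (1 - r) • n := by rw [sub_smul, one_smul]
    rw [h2, meanD_smul] at h1
    exact h1.symm
  have hHeq : ∀ n : E3, ∀ r : ℝ, r • H (n, r) = g (r • n) := by
    intro n r
    have h1 := meanD_sub g hg 0 (r • n)
    rw [hz0, sub_zero, sub_zero, meanD_smul] at h1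
    exact h1.symm
  have hG1 : ∀ n, G (n, 1) = w n := by
    intro n
    change meanD g ((1 : ℝ) • n) n n = _
    rw [one_smul, meanD_self, hDg]
  have hH0 : ∀ n, H (n, 0) = fderiv ℝ g 0 n := by
    intro n
    change meanD g 0 ((0 : ℝ) • n) n = _
    rw [zero_smul, meanD_self]
  -- first transport, from `r = 1` to `r = 1/2`
  have hf1 : HasField G 1 := by
    refine ⟨V, ?_, ?_⟩
    · have h1 : Continuous fun n : E3 => fderiv ℝ Ψ (0, n) :=
        (hΨ.continuous_fderiv (by simp)).comp (by fun_prop)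
      exact (h1.clm_apply continuous_const).continuousOn
    · intro n hn c
      rw [hG1]
      exact (hindep n hn).1 c
  have hf2 : HasField G (1 / 2) := by
    refine transport G (1 / 2) 1 (by norm_num) hGc.continuousOn ?_ hf1
    rintro ⟨n, r⟩ ⟨hn, hr⟩ h0
    have hr1 : (1 / 2 : ℝ) ≤ r := hr.1
    have hr2 : r ≤ 1 := hr.2
    rcases hr2.lt_or_eq with h | h
    · have := hGeq n hn r
      rw [h0, smul_zero] at this
      exact hin n hn r (by linarith) h (neg_eq_zero.1 this.symm)
    · subst h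
      rw [hG1] at h0
      exact (hindep n hn).2 h0
  -- second transport
  have hf3 : HasField H (1 / 2) := by
    obtain ⟨V', hV', hVn⟩ := hf2
    refine ⟨V', hV', ?_⟩
    intro n hn c hc
    apply hVn n hn (-c)
    rw [hc]
    have h1 := hGeq n hn (1 / 2)
    have h2 := hHeq n (1 / 2)
    have h3 : G (n, 1 / 2) = - H (n, 1 / 2) := by
      have h4 : ((1 : ℝ) / 2) • G (n, 1 / 2) = ((1 : ℝ) / 2) • (- H (n, 1 / 2)) := by
        rw [smul_neg, h2, ← h1]
        norm_num
      exact smul_right_injective E3 (by norm_num : (1 : ℝ) / 2 ≠ 0) h4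
    rw [h3, smul_neg, neg_smul, neg_neg]
  have hf4 : HasField H 0 := by
    refine transport H 0 (1 / 2) (by norm_num) hHc.continuousOn ?_ hf3
    rintro ⟨n, r⟩ ⟨hn, hr⟩ h0
    have hr1 : (0 : ℝ) ≤ r := hr.1
    have hr2 : r ≤ 1 / 2 := hr.2
    rcases hr1.lt_or_eq with h | h
    · have := hHeq n r
      rw [h0, smul_zero] at this
      exact hin n hn r h (by linarith) this.symm
    · subst h
      rw [hH0] at h0
      have h1 : n = 0 := hAinj (by rw [h0, map_zero])
      rw [h1] at hn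
      simp at hn
  -- conclusion
  obtain ⟨V', hV', hVn⟩ := hf4
  let A : E3 ≃L[ℝ] E3 := ContinuousLinearEquiv.ofBijective (fderiv ℝ g 0)
    (LinearMap.ker_eq_bot.2 hAinj) (LinearMap.range_eq_top.2 hA')
  refine hairy_ball (fun n => A.symm (V' n)) (A.symm.continuous.comp_continuousOn hV') ?_
  intro n hn c hc
  apply hVn n hn c
  rw [hH0]
  have : V' n = A (c • n) := by rw [← hc]; simp
  rw [this, map_smul]
  rfl

end Pool.Agent.Lib.MP_b1931f_gt
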