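import Mathlib
import Pool.Agent.Lib.MP_b1931f_gt.NotCI

/-!
An explicit submersion `E^3 × E^3 → E^3` vanishing on the model pair.
-/

open scoped Real Topology ContDiff
open Set Metric

namespace Pool.Agent.Lib.MP_b1931f_gt

/-- cross product on `E3` -/
noncomputable def cr (u v : E3) : E3 :=
  !₂[u 1 * v 2 - u 2 * v 1, u 2 * v 0 - u 0 * v 2, u 0 * v 1 - u 1 * v 0]

/-- bilinear cross product -/
noncomputable def crL : E3 →ₗ[ℝ] E3 →ₗ[ℝ] E3 :=
  LinearMap.mk₂ ℝ cr
    (fun a b c => by ext i; fin_cases i <;> simp [cr] <;> ring)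
    (fun r a b => by ext i; fin_cases i <;> simp [cr] <;> ring)
    (fun a b c => by ext i; fin_cases i <;> simp [cr] <;> ring)
    (fun r a b => by ext i; fin_cases i <;> simp [cr] <;> ring)

/-- continuous bilinear cross product -/
noncomputable def crB : E3 →L[ℝ] E3 →L[ℝ] E3 :=
  LinearMap.toContinuousLinearMap
    ((LinearMap.toContinuousLinearMap : (E3 →ₗ[ℝ] E3) ≃ₗ[ℝ] (E3 →L[ℝ] E3)).toLinearMap ∘ₗ crL)

theorem crB_apply (u v : E3) : crB u v = cr u v := rfl

/-- the map `f(u,v) = (u·v)(u-v) + u × v` -/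
noncomputable def ff (p : E3 × E3) : E3 :=
  inner ℝ p.1 p.2 • (p.1 - p.2) + crB p.1 p.2

theorem ff_contDiff : ContDiff ℝ ∞ ff := by
  unfold ff
  have h1 : ContDiff ℝ ∞ fun p : E3 × E3 => inner ℝ p.1 p.2 := contDiff_fst.inner ℝ contDiff_snd
  have h2 : ContDiff ℝ ∞ fun p : E3 × E3 => crB p.1 p.2 :=
    (crB.contDiff.comp contDiff_fst).clm_apply contDiff_snd
  exact (h1.smul (contDiff_fst.sub contDiff_snd)).add h2

theorem ff_deriv (u v a b : E3) :
    fderiv ℝ ff (u, v) (a, b) = (inner ℝ a v + inner ℝ u b) • (u - v) + inner ℝ u v • (a - b)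
      + cr a v + cr u b := by
  have hi := (hasFDerivAt_fst (𝕜 := ℝ) (p := (u, v))).inner ℝ (hasFDerivAt_snd (𝕜 := ℝ) (p := (u, v)))
  have hs : HasFDerivAt (fun p : E3 × E3 => p.1 - p.2)
      (ContinuousLinearMap.fst ℝ E3 E3 - ContinuousLinearMap.snd ℝ E3 E3) (u, v) :=
    hasFDerivAt_fst.sub hasFDerivAt_snd
  have hc := ContinuousLinearMap.hasFDerivAt_of_bilinear crB
    (hasFDerivAt_fst (𝕜 := ℝ) (p := (u, v))) (hasFDerivAt_snd (𝕜 := ℝ) (p := (u, v)))
  have := (hi.smul hs).add hc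
  have h2 : HasFDerivAt ff _ (u, v) := this
  rw [h2.fderiv]
  simp [fderivInnerCLM_apply, crB_apply]
  rw [add_comm (inner ℝ a v) (inner ℝ u b)]
  abel

theorem alg_key (u0 u1 u2 v0 v1 v2 x0 x1 x2 : ℝ)
    (hne : 0 < u0 ^ 2 + u1 ^ 2 + u2 ^ 2 + v0 ^ 2 + v1 ^ 2 + v2 ^ 2)
    (c s : ℝ) (hc : c = x0 * (u0 - v0) + x1 * (u1 - v1) + x2 * (u2 - v2))
    (hs : s = u0 * v0 + u1 * v1 + u2 * v2)
    (h0 : c * v0 + s * x0 + (v1 * x2 - v2 * x1) = 0)
    (h1 : c * v1 + s * x1 + (v2 * x0 - v0 * x2) = 0)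
    (h2 : c * v2 + s * x2 + (v0 * x1 - v1 * x0) = 0)
    (k0 : c * u0 - s * x0 + (x1 * u2 - x2 * u1) = 0)
    (k1 : c * u1 - s * x1 + (x2 * u0 - x0 * u2) = 0)
    (k2 : c * u2 - s * x2 + (x0 * u1 - x1 * u0) = 0) :
    x0 = 0 ∧ x1 = 0 ∧ x2 = 0 := by
  set U := u0 ^ 2 + u1 ^ 2 + u2 ^ 2 with hU
  set V := v0 ^ 2 + v1 ^ 2 + v2 ^ 2 with hV
  set X := x0 ^ 2 + x1 ^ 2 + x2 ^ 2 with hX
  set p := x0 * u0 + x1 * u1 + x2 * u2 with hp
  set q := x0 * v0 + x1 * v1 + x2 * v2 with hq
  have hcpq : c = p - q := by rw [hc, hp, hq]; ring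
  have e1 : c * V + s * q = 0 := by
    rw [hV, hq]; linear_combination v0 * h0 + v1 * h1 + v2 * h2
  have e2 : c * q + s * X = 0 := by
    rw [hX, hq]; linear_combination x0 * h0 + x1 * h1 + x2 * h2
  have e3 : c * U - s * p = 0 := by
    rw [hU, hp]; linear_combination u0 * k0 + u1 * k1 + u2 * k2
  have e4 : c * p - s * X = 0 := by
    rw [hX, hp]; linear_combination x0 * k0 + x1 * k1 + x2 * k2
  have e5 : c * (U + V - s) = 0 := by
    have : s * (p - q) = s * c := by rw [hcpq]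
    linear_combination e1 + e3 + this
  have hpos : 0 < U + V - s := by
    have h1 : 2 * s ≤ U + V := by
      rw [hU, hV, hs]
      nlinarith [sq_nonneg (u0 - v0), sq_nonneg (u1 - v1), sq_nonneg (u2 - v2)]
    have h2 : 0 < U + V := by rw [hU, hV]; linarith
    linarith
  have hc0 : c = 0 := by
    rcases mul_eq_zero.1 e5 with h | h
    · exact h
    · exact absurd h hpos.ne'
  have hX0 : X = 0 := by
    by_cases hs0 : s = 0
    · -- then `v × x = 0`, `x × u = 0`, `p = q`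
      have hpq : p = q := by linarith
      rw [hc0, hs0] at h0 h1 h2 k0 k1 k2
      have a0 : v1 * x2 - v2 * x1 = 0 := by linarith
      have a1 : v2 * x0 - v0 * x2 = 0 := by linarith
      have a2 : v0 * x1 - v1 * x0 = 0 := by linarith
      have b0 : x1 * u2 - x2 * u1 = 0 := by linarith
      have b1 : x2 * u0 - x0 * u2 = 0 := by linarith
      have b2 : x0 * u1 - x1 * u0 = 0 := by linarith
      -- `X v = q x`, `X u = p x`
      have m0 : X * v0 = q * x0 := by rw [hX, hq]; linear_combination x2 * (-a1) + x1 * a2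
      have m1 : X * v1 = q * x1 := by rw [hX, hq]; linear_combination x2 * a0 - x0 * a2
      have m2 : X * v2 = q * x2 := by rw [hX, hq]; linear_combination x0 * a1 - x1 * a0
      have l0 : X * u0 = p * x0 := by rw [hX, hp]; linear_combination x2 * b1 - x1 * b2
      have l1 : X * u1 = p * x1 := by rw [hX, hp]; linear_combination x0 * b2 - x2 * b0
      have l2 : X * u2 = p * x2 := by rw [hX, hp]; linear_combination x1 * b0 - x0 * b1
      by_contra hXne
      have w0 : u0 = v0 := by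
        apply mul_left_cancel₀ hXne; rw [l0, m0, hpq]
      have w1 : u1 = v1 := by
        apply mul_left_cancel₀ hXne; rw [l1, m1, hpq]
      have w2 : u2 = v2 := by
        apply mul_left_cancel₀ hXne; rw [l2, m2, hpq]
      rw [hs, w0, w1, w2] at hs0
      have : V = 0 := by rw [hV]; linarith
      have h3 : U = 0 := by rw [hU, w0, w1, w2, ← hV]; exact this
      have h4 : U + V > 0 := by rw [hU, hV]; linarith
      linarith
    · rw [hc0] at e2
      rcases mul_eq_zero.1 (by linarith : s * X = 0) with h | h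
      · exact absurd h hs0
      · exact h
  have y0 : x0 ^ 2 = 0 := by nlinarith [sq_nonneg x0, sq_nonneg x1, sq_nonneg x2]
  have y1 : x1 ^ 2 = 0 := by nlinarith [sq_nonneg x0, sq_nonneg x1, sq_nonneg x2]
  have y2 : x2 ^ 2 = 0 := by nlinarith [sq_nonneg x0, sq_nonneg x1, sq_nonneg x2]
  exact ⟨by simpa using y0, by simpa using y1, by simpa using y2⟩

theorem ff_surj (p : E3 × E3) (hp : p ≠ 0) : Function.Surjective (fderiv ℝ ff p) := by
  obtain ⟨u, v⟩ := p
  have hK : LinearMap.range ((fderiv ℝ ff (u, v)) : (E3 × E3) →ₗ[ℝ] E3) = ⊤ := by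
    rw [← Submodule.orthogonal_eq_bot_iff, Submodule.eq_bot_iff]
    intro x hx
    rw [Submodule.mem_orthogonal] at hx
    have hx' : ∀ a b : E3, inner ℝ ((inner ℝ a v + inner ℝ u b) • (u - v) + inner ℝ u v • (a - b)
      + cr a v + cr u b) x = 0 := by
      intro a b
      apply hx
      exact ⟨(a, b), by rw [← ff_deriv]; rfl⟩
    have hA : ∀ i : Fin 3, _ := fun i => hx' (EuclideanSpace.single i 1) 0
    have hB : ∀ i : Fin 3, _ := fun i => hx' 0 (EuclideanSpace.single i 1)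
    have hA0 := hA 0
    have hA1 := hA 1
    have hA2 := hA 2
    have hB0 := hB 0
    have hB1 := hB 1
    have hB2 := hB 2
    simp [PiLp.inner_apply, Fin.sum_univ_three, cr] at hA0 hA1 hA2 hB0 hB1 hB2
    have hne : 0 < u 0 ^ 2 + u 1 ^ 2 + u 2 ^ 2 + v 0 ^ 2 + v 1 ^ 2 + v 2 ^ 2 := by
      by_contra hcon
      apply hp
      have z0 : u 0 ^ 2 = 0 := by nlinarith [sq_nonneg (u 0), sq_nonneg (u 1), sq_nonneg (u 2), sq_nonneg (v 0), sq_nonneg (v 1), sq_nonneg (v 2)]
      have z1 : u 1 ^ 2 = 0 := by nlinarith [sq_nonneg (u 0), sq_nonneg (u 1), sq_nonneg (u 2), sq_nonneg (v 0), sq_nonneg (v 1), sq_nonneg (v 2)]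
      have z2 : u 2 ^ 2 = 0 := by nlinarith [sq_nonneg (u 0), sq_nonneg (u 1), sq_nonneg (u 2), sq_nonneg (v 0), sq_nonneg (v 1), sq_nonneg (v 2)]
      have z3 : v 0 ^ 2 = 0 := by nlinarith [sq_nonneg (u 0), sq_nonneg (u 1), sq_nonneg (u 2), sq_nonneg (v 0), sq_nonneg (v 1), sq_nonneg (v 2)]
      have z4 : v 1 ^ 2 = 0 := by nlinarith [sq_nonneg (u 0), sq_nonneg (u 1), sq_nonneg (u 2), sq_nonneg (v 0), sq_nonneg (v 1), sq_nonneg (v 2)]
      have z5 : v 2 ^ 2 = 0 := by nlinarith [sq_nonneg (u 0), sq_nonneg (u 1), sq_nonneg (u 2), sq_nonneg (v 0), sq_nonneg (v 1), sq_nonneg (v 2)]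
      have hu : u = 0 := by
        ext i; fin_cases i
        · simpa using z0
        · simpa using z1
        · simpa using z2
      have hv : v = 0 := by
        ext i; fin_cases i
        · simpa using z3
        · simpa using z4
        · simpa using z5
      rw [hu, hv]; rfl
    obtain ⟨r0, r1, r2⟩ := alg_key (u 0) (u 1) (u 2) (v 0) (v 1) (v 2) (x 0) (x 1) (x 2) hne _ _ rfl rfl
      (by linear_combination hA0) (by linear_combination hA1) (by linear_combination hA2)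
      (by linear_combination hB0) (by linear_combination hB1) (by linear_combination hB2)
    ext i; fin_cases i
    · exact r0
    · exact r1
    · exact r2
  exact LinearMap.range_eq_top.1 hK

/-- projection killing the first coordinate and shifting, `x ↦ (x₁, x₂, 0)` -/
noncomputable def PL : E3 →ₗ[ℝ] E3 where
  toFun x := !₂[x 1, x 2, 0]
  map_add' a b := by ext i; fin_cases i <;> simp
  map_smul' r a := by ext i; fin_cases i <;> simp

noncomputable def P : E3 →L[ℝ] E3 := LinearMap.toContinuousLinearMap PL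

theorem P_apply (x : E3) : P x = !₂[x 1, x 2, 0] := rfl

theorem inner_P (x a : E3) : inner ℝ (P x) (P a) = x 1 * a 1 + x 2 * a 2 := by
  simp only [P_apply, PiLp.inner_apply, Fin.sum_univ_three]
  simp
  ring

/-- third basis vector -/
noncomputable def w3 : E3 := EuclideanSpace.single 2 1

/-- `k (x,y) = (x₁, x₂, (‖y‖² + x₁² + x₂² - 1)/2)` -/
noncomputable def kk (p : E3 × E3) : E3 :=
  P p.1 + ((1 / 2 : ℝ) * (inner ℝ p.2 p.2 + inner ℝ (P p.1) (P p.1) - 1)) • w3

/-- `e (x, y) = e^{x₀} (y, k (x, y))` -/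
noncomputable def ee (p : E3 × E3) : E3 × E3 :=
  (Real.exp (p.1 0) • p.2, Real.exp (p.1 0) • kk p)

theorem kk_contDiff : ContDiff ℝ ∞ kk := by
  unfold kk
  have h1 : ContDiff ℝ ∞ fun p : E3 × E3 => P p.1 := P.contDiff.comp contDiff_fst
  have h2 : ContDiff ℝ ∞ fun p : E3 × E3 => inner ℝ p.2 p.2 := contDiff_snd.inner ℝ contDiff_snd
  have h3 : ContDiff ℝ ∞ fun p : E3 × E3 => inner ℝ (P p.1) (P p.1) := h1.inner ℝ h1
  exact h1.add ((contDiff_const.mul ((h2.add h3).sub contDiff_const)).smul contDiff_const)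

theorem exp_contDiff : ContDiff ℝ ∞ fun p : E3 × E3 => Real.exp (p.1 0) :=
  Real.contDiff_exp.comp
    ((EuclideanSpace.proj (0 : Fin 3) : E3 →L[ℝ] ℝ).contDiff.comp contDiff_fst)

theorem ee_contDiff : ContDiff ℝ ∞ ee :=
  (exp_contDiff.smul contDiff_snd).prodMk (exp_contDiff.smul kk_contDiff)

theorem ee_ne_zero (p : E3 × E3) : ee p ≠ 0 := by
  intro h
  have h1 : Real.exp (p.1 0) • p.2 = 0 := congrArg Prod.fst h
  have h2 : Real.exp (p.1 0) • kk p = 0 := congrArg Prod.snd h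
  have he : Real.exp (p.1 0) ≠ 0 := (Real.exp_pos _).ne'
  have h3 : p.2 = 0 := by
    rcases smul_eq_zero.1 h1 with h | h
    · exact absurd h he
    · exact h
  have h4 : kk p = 0 := by
    rcases smul_eq_zero.1 h2 with h | h
    · exact absurd h he
    · exact h
  have c0 := congrArg (fun z : E3 => z 0) h4
  have c1 := congrArg (fun z : E3 => z 1) h4
  have c2 := congrArg (fun z : E3 => z 2) h4
  simp only [kk, inner_P, h3, inner_zero_left] at c0 c1 c2
  simp [P_apply, w3] at c0 c1 c2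
  rw [c0, c1] at c2
  norm_num at c2

theorem kk_deriv (x y : E3) :
    ∃ K : (E3 × E3) →L[ℝ] E3, HasFDerivAt kk K (x, y) ∧
      ∀ a b : E3, K (a, b) = P a + (inner ℝ y b + inner ℝ (P x) (P a)) • w3 := by
  have h1 : HasFDerivAt (fun p : E3 × E3 => P p.1) (P.comp (ContinuousLinearMap.fst ℝ E3 E3))
      (x, y) := P.hasFDerivAt.comp (x, y) hasFDerivAt_fst
  have h2 := (hasFDerivAt_snd (𝕜 := ℝ) (p := (x, y))).inner ℝ
    (hasFDerivAt_snd (𝕜 := ℝ) (p := (x, y)))
  have h3 := h1.inner ℝ h1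
  have h4 := h1.add ((((h2.add h3).sub_const 1).const_mul (1 / 2 : ℝ)).smul_const w3)
  refine ⟨_, h4, ?_⟩
  intro a b
  simp [fderivInnerCLM_apply]
  rw [real_inner_comm y b, real_inner_comm (P x) (P a)]
  congr 1
  ring

theorem ee_surj (p : E3 × E3) : Function.Surjective (fderiv ℝ ee p) := by
  obtain ⟨x, y⟩ := p
  obtain ⟨K, hK, hKf⟩ := kk_deriv x y
  have hx : HasFDerivAt (fun p : E3 × E3 => Real.exp (p.1 0))
      (Real.exp (x 0) • ((EuclideanSpace.proj (0 : Fin 3) : E3 →L[ℝ] ℝ).comp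
        (ContinuousLinearMap.fst ℝ E3 E3))) (x, y) := by
    have h1 : HasFDerivAt (fun p : E3 × E3 => (EuclideanSpace.proj (0 : Fin 3) : E3 →L[ℝ] ℝ) p.1)
      ((EuclideanSpace.proj (0 : Fin 3) : E3 →L[ℝ] ℝ).comp
        (ContinuousLinearMap.fst ℝ E3 E3)) (x, y) :=
      (EuclideanSpace.proj (0 : Fin 3) : E3 →L[ℝ] ℝ).hasFDerivAt.comp (x, y) hasFDerivAt_fst
    exact h1.exp
  have h1 := hx.smul (hasFDerivAt_snd (𝕜 := ℝ) (p := (x, y)))
  have h2 := hx.smul hK
  have h3 : HasFDerivAt ee _ (x, y) := h1.prodMk h2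
  rw [h3.fderiv]
  rintro ⟨A, B⟩
  set E := Real.exp (x 0) with hE
  have hE0 : E ≠ 0 := (Real.exp_pos _).ne'
  set k := kk (x, y) with hk
  have hkf : k = P x + ((1 / 2 : ℝ) * (inner ℝ y y + inner ℝ (P x) (P x) - 1)) • w3 := rfl
  set S := inner ℝ y y + inner ℝ (P x) (P x) with hS
  have hSpos : 0 ≤ S := add_nonneg real_inner_self_nonneg real_inner_self_nonneg
  set A' := E⁻¹ • A with hA'
  set B' := E⁻¹ • B with hB'
  set a0 : ℝ := -2 * (B' 2 - inner ℝ y A' - x 1 * B' 0 - x 2 * B' 1) / (S + 1) with ha0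
  have ha0' : a0 * (S + 1) = -2 * (B' 2 - inner ℝ y A' - x 1 * B' 0 - x 2 * B' 1) := by
    rw [ha0]; field_simp
  refine ⟨(!₂[a0, B' 0 - a0 * x 1, B' 1 - a0 * x 2], A' - a0 • y), ?_⟩
  have hAA : A = E • A' := by rw [hA', smul_smul, mul_inv_cancel₀ hE0, one_smul]
  have hBB : B = E • B' := by rw [hB', smul_smul, mul_inv_cancel₀ hE0, one_smul]
  have hPx : inner ℝ (P x) (P x) = x 1 * x 1 + x 2 * x 2 := inner_P x x
  ext1
  · simp [hKf]
    rw [hAA]
    ext i
    simp
    ring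
  · have hin : inner ℝ y (A' - a0 • y) = inner ℝ y A' - a0 * inner ℝ y y := by
      rw [inner_sub_right, real_inner_smul_right y y a0]
    have hlhs : ((E • ContinuousLinearMap.snd ℝ E3 E3 +
          (E • (EuclideanSpace.proj (0 : Fin 3) : E3 →L[ℝ] ℝ).comp
            (ContinuousLinearMap.fst ℝ E3 E3)).smulRight (x, y).2).prod
      (E • K + (E • (EuclideanSpace.proj (0 : Fin 3) : E3 →L[ℝ] ℝ).comp
        (ContinuousLinearMap.fst ℝ E3 E3)).smulRight k)
        (!₂[a0, B' 0 - a0 * x 1, B' 1 - a0 * x 2], A' - a0 • y)).2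
        = E • (P !₂[a0, B' 0 - a0 * x 1, B' 1 - a0 * x 2] +
          (inner ℝ y (A' - a0 • y) + inner ℝ (P x) (P !₂[a0, B' 0 - a0 * x 1, B' 1 - a0 * x 2]))
            • w3) + (E * a0) • k := by
      rw [← hKf]
      rfl
    rw [hlhs, hin, inner_P, hBB, hkf]
    rw [hPx] at hS
    ext i
    fin_cases i
    · simp [P_apply, w3]
      ring
    · simp [P_apply, w3]
      ring
    · generalize inner ℝ y A' = t at *
      generalize inner ℝ y y = z at *
      clear_value a0 A' B' S E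
      simp only [P_apply, w3]
      simp
      linear_combination (-E / 2) * ha0' + (E * a0) * hS

/-- The submersion `E^3 × E^3 → E^3`. -/
noncomputable def Phi (p : E3 × E3) : E3 := ff (ee p)

theorem Phi_contDiff : ContDiff ℝ ∞ Phi := ff_contDiff.comp ee_contDiff

theorem Phi_surj (p : E3 × E3) : Function.Surjective (fderiv ℝ Phi p) := by
  have h1 : HasFDerivAt ff (fderiv ℝ ff (ee p)) (ee p) :=
    (ff_contDiff.differentiable (by simp) _).hasFDerivAt
  have h2 : HasFDerivAt ee (fderiv ℝ ee p) p :=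
    (ee_contDiff.differentiable (by simp) _).hasFDerivAt
  have h3 : HasFDerivAt Phi _ p := h1.comp p h2
  rw [h3.fderiv]
  exact (ff_surj _ (ee_ne_zero p)).comp (ee_surj p)

theorem Phi_zero (p : E3 × E3) (hp : p ∈ modelL) : Phi p = 0 := by
  rcases hp with h | ⟨h1, h2, h3⟩
  · simp [Phi, ee, ff, h]
  · have hk : kk p = 0 := by
      have hP : P p.1 = 0 := by
        rw [P_apply, h2, h3]
        ext i; fin_cases i <;> simp
      rw [kk, hP, real_inner_self_eq_norm_sq, h1]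
      simp
    simp [Phi, ee, ff, hk]

end Pool.Agent.Lib.MP_b1931f_gt
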